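import Mathlib
import Pool.Agent.V11102.Asq.Graph
import Pool.Agent.W179.Erdos

/-!
An unbounded uniformly discrete metric space whose Lipschitz space is almost square.
The space is a union of finite graphs of growing girth and chromatic number.
-/

set_option autoImplicit false

namespace Pool.Agent.Results.MP_fe8a5b_an.AlmostSquareLip

open Pool.Agent.V11102.Asq

/-- The vector space of all Lipschitz functions on `M` that vanish at the base point `o`. -/
def LipSp (M : Type*) [MetricSpace M] (o : M) : Submodule ℝ (M → ℝ) where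
  carrier := {f | f o = 0 ∧ ∃ K : ℝ, ∀ x y, |f x - f y| ≤ K * dist x y}
  add_mem' := by
    rintro f g ⟨hf, K, hK⟩ ⟨hg, L, hL⟩
    refine ⟨by simp [hf, hg], K + L, fun x y => ?_⟩
    have h1 := hK x y
    have h2 := hL x y
    have h3 : (f + g) x - (f + g) y = (f x - f y) + (g x - g y) := by
      simp only [Pi.add_apply]; ring
    rw [h3, add_mul]
    exact (abs_add_le _ _).trans (add_le_add h1 h2)
  zero_mem' := ⟨rfl, 0, fun x y => by simp⟩
  smul_mem' := by
    rintro c f ⟨hf, K, hK⟩
    refine ⟨by simp [hf], |c| * K, fun x y => ?_⟩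
    have h3 : (c • f) x - (c • f) y = c * (f x - f y) := by
      simp only [Pi.smul_apply, smul_eq_mul]; ring
    rw [h3, abs_mul, mul_assoc]
    exact mul_le_mul_of_nonneg_left (hK x y) (abs_nonneg c)

/-- The best Lipschitz constant of `f`: the supremum of `|f x - f y| / d(x, y)`. -/
noncomputable def lipNorm {M : Type*} [MetricSpace M] (f : M → ℝ) : ℝ :=
  ⨆ p : M × M, |f p.1 - f p.2| / dist p.1 p.2

section
variable {M : Type*} [MetricSpace M] {o : M}

theorem bdd_of {f : M → ℝ} {K : ℝ} (h : ∀ x y, |f x - f y| ≤ K * dist x y) :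
    BddAbove (Set.range fun p : M × M => |f p.1 - f p.2| / dist p.1 p.2) := by
  refine ⟨max K 0, ?_⟩
  rintro _ ⟨p, rfl⟩
  show |f p.1 - f p.2| / dist p.1 p.2 ≤ max K 0
  rcases eq_or_ne p.1 p.2 with hp | hp
  · rw [hp]; simp
  · have hd : 0 < dist p.1 p.2 := dist_pos.mpr hp
    exact (div_le_iff₀ hd).mpr ((h _ _).trans
      (mul_le_mul_of_nonneg_right (le_max_left _ _) hd.le))

theorem lipNorm_nonneg (f : M → ℝ) : 0 ≤ lipNorm f := by
  unfold lipNorm
  apply Real.iSup_nonneg
  intro p
  positivity

theorem le_lipNorm {f : M → ℝ} (hf : ∃ K : ℝ, ∀ x y, |f x - f y| ≤ K * dist x y) (x y : M) :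
    |f x - f y| ≤ lipNorm f * dist x y := by
  obtain ⟨K, hK⟩ := hf
  rcases eq_or_ne x y with hp | hp
  · rw [hp]; simp
  · have hd : 0 < dist x y := dist_pos.mpr hp
    have h1 : |f x - f y| / dist x y ≤ lipNorm f :=
      le_ciSup (f := fun p : M × M => |f p.1 - f p.2| / dist p.1 p.2) (bdd_of hK) (x, y)
    exact (div_le_iff₀ hd).mp h1

theorem lipNorm_le {f : M → ℝ} {K : ℝ} (hK0 : 0 ≤ K) (hK : ∀ x y, |f x - f y| ≤ K * dist x y) :
    lipNorm f ≤ K := by
  unfold lipNorm
  apply Real.iSup_le _ hK0
  intro p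
  rcases eq_or_ne p.1 p.2 with hp | hp
  · rw [hp]; simpa using hK0
  · have hd : 0 < dist p.1 p.2 := dist_pos.mpr hp
    exact (div_le_iff₀ hd).mpr (hK _ _)

noncomputable instance : Norm (LipSp M o) := ⟨fun f => lipNorm (f : M → ℝ)⟩

theorem norm_def (f : LipSp M o) : ‖f‖ = lipNorm (f : M → ℝ) := rfl

theorem norm_bound (f : LipSp M o) (x y : M) :
    |(f : M → ℝ) x - (f : M → ℝ) y| ≤ ‖f‖ * dist x y :=
  le_lipNorm f.2.2 x y

theorem norm_le_of (f : LipSp M o) {K : ℝ} (hK0 : 0 ≤ K)
    (hK : ∀ x y, |(f : M → ℝ) x - (f : M → ℝ) y| ≤ K * dist x y) : ‖f‖ ≤ K :=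
  lipNorm_le hK0 hK

theorem core : NormedSpace.Core ℝ (LipSp M o) where
  norm_nonneg f := lipNorm_nonneg _
  norm_smul c f := by
    apply le_antisymm
    · apply norm_le_of
      · exact mul_nonneg (norm_nonneg c) (lipNorm_nonneg _)
      intro x y
      have h3 : ((c • f : LipSp M o) : M → ℝ) x - ((c • f : LipSp M o) : M → ℝ) y =
          c * ((f : M → ℝ) x - (f : M → ℝ) y) := by
        simp only [Submodule.coe_smul, Pi.smul_apply, smul_eq_mul]; ring
      rw [h3, abs_mul, mul_assoc]
      exact mul_le_mul_of_nonneg_left (norm_bound f x y) (abs_nonneg c)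
    · rcases eq_or_ne c 0 with hc | hc
      · rw [hc]; simp only [norm_zero, zero_mul]; exact lipNorm_nonneg _
      have hc' : 0 < |c| := abs_pos.mpr hc
      have h1 : ‖f‖ ≤ |c|⁻¹ * ‖c • f‖ := by
        apply norm_le_of
        · exact mul_nonneg (inv_nonneg.mpr hc'.le) (lipNorm_nonneg _)
        intro x y
        have h2 := norm_bound (c • f) x y
        have h3 : ((c • f : LipSp M o) : M → ℝ) x - ((c • f : LipSp M o) : M → ℝ) y =
            c * ((f : M → ℝ) x - (f : M → ℝ) y) := by
          simp only [Submodule.coe_smul, Pi.smul_apply, smul_eq_mul]; ring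
        rw [h3, abs_mul] at h2
        rw [mul_assoc, ← div_eq_inv_mul, le_div_iff₀ hc', mul_comm]
        exact h2
      calc ‖c‖ * ‖f‖ ≤ |c| * (|c|⁻¹ * ‖c • f‖) :=
            mul_le_mul_of_nonneg_left h1 (abs_nonneg c)
        _ = ‖c • f‖ := by rw [← mul_assoc, mul_inv_cancel₀ hc'.ne', one_mul]
  norm_triangle f g := by
    apply norm_le_of
    · exact add_nonneg (lipNorm_nonneg _) (lipNorm_nonneg _)
    intro x y
    have h3 : ((f + g : LipSp M o) : M → ℝ) x - ((f + g : LipSp M o) : M → ℝ) y =
        ((f : M → ℝ) x - (f : M → ℝ) y) + ((g : M → ℝ) x - (g : M → ℝ) y) := by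
      simp only [Submodule.coe_add, Pi.add_apply]; ring
    rw [h3, add_mul]
    exact (abs_add_le _ _).trans (add_le_add (norm_bound f x y) (norm_bound g x y))
  norm_eq_zero_iff f := by
    constructor
    · intro h
      apply Subtype.ext
      funext x
      have h1 := norm_bound f x o
      rw [h, zero_mul, f.2.1, sub_zero] at h1
      exact abs_eq_zero.mp (le_antisymm h1 (abs_nonneg _))
    · rintro rfl
      apply le_antisymm _ (lipNorm_nonneg _)
      apply norm_le_of _ le_rfl
      intro x y
      simp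

noncomputable instance : NormedAddCommGroup (LipSp M o) := NormedAddCommGroup.ofCore (core (M := M) (o := o))

noncomputable instance : NormedSpace ℝ (LipSp M o) := NormedSpace.ofCore (core (M := M) (o := o))

end

/-- A normed space is almost square if for every finite family in its unit sphere and every
`ε > 0` there is a norm-one `y` with `‖x ± y‖ ≤ 1 + ε` for every `x` in the family. -/
def AlmostSquare (X : Type*) [NormedAddCommGroup X] : Prop :=
  ∀ s : Finset X, (∀ x ∈ s, ‖x‖ = 1) → ∀ ε : ℝ, 0 < ε →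
    ∃ y : X, ‖y‖ = 1 ∧ ∀ x ∈ s, ‖x + y‖ ≤ 1 + ε ∧ ‖x - y‖ ≤ 1 + ε


open SimpleGraph Pool.Agent.W179.Erdos

theorem graph_exists : ∃ (W : Type) (Γ : SimpleGraph W) (idx : W → ℕ),
    (∀ a b, Γ.Adj a b → idx a = idx b) ∧
    (∀ (n : ℕ) (α : Type) (_ : Fintype α) (c : W → α), Fintype.card α ≤ n →
      ∃ a b, Γ.Adj a b ∧ idx a = n ∧ c a = c b) ∧
    (∀ a b, Γ.Adj a b → ∀ p : (Γ.deleteEdges {s(a, b)}).Walk a b, idx a < p.length) := by
  classical
  choose V hV H hcol hcyc using fun n : ℕ => erdos n (n + 2)
  let W : Type := Σ n, V n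
  let Γ : SimpleGraph W :=
    { Adj := fun a b => ∃ (n : ℕ) (x y : V n), (H n).Adj x y ∧ a = ⟨n, x⟩ ∧ b = ⟨n, y⟩
      symm := ⟨by
        rintro a b ⟨n, x, y, h, h1, h2⟩
        exact ⟨n, y, x, h.symm, h2, h1⟩⟩
      loopless := ⟨by
        rintro a ⟨n, x, y, h, h1, h2⟩
        rw [h1] at h2
        have h3 : x = y := by
          have := (Sigma.mk.inj_iff.mp h2).2
          exact eq_of_heq this
        exact h.ne h3⟩ }
  have hadj : ∀ (n : ℕ) (x y : V n), Γ.Adj ⟨n, x⟩ ⟨n, y⟩ → (H n).Adj x y := by
    rintro n x y ⟨m, x', y', h, h1, h2⟩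
    obtain ⟨rfl, h3⟩ := Sigma.mk.inj_iff.mp h1
    obtain ⟨-, h4⟩ := Sigma.mk.inj_iff.mp h2
    rw [eq_of_heq h3, eq_of_heq h4]
    exact h
  have hidx : ∀ a b : W, Γ.Adj a b → a.1 = b.1 := by
    rintro a b ⟨m, x', y', h, rfl, rfl⟩
    rfl
  refine ⟨W, Γ, Sigma.fst, hidx, ?_, ?_⟩
  · intro n α _ c hc
    by_contra hno
    push Not at hno
    apply hcol n
    have C : (H n).Coloring α := SimpleGraph.Coloring.mk (fun x => c ⟨n, x⟩) (by
      intro x y hxy
      exact hno ⟨n, x⟩ ⟨n, y⟩ ⟨n, x, y, hxy, rfl, rfl⟩ rfl)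
    exact C.colorable.mono hc
  · rintro a b hab p
    obtain ⟨n, x, y, hxy, rfl, rfl⟩ := hab
    show n < p.length
    let q := p.bypass
    have hq : q.IsPath := p.bypass_isPath
    have hlen : q.length ≤ p.length := p.length_bypass_le_length
    have hfib : ∀ i, ∃ z : V n, q.getVert i = ⟨n, z⟩ := by
      have hgen : ∀ {a b : W} (r : (Γ.deleteEdges {s((⟨n, x⟩ : W), (⟨n, y⟩ : W))}).Walk a b) (i : ℕ),
          a.1 = n → (r.getVert i).1 = n := by
        intro a b r
        induction r with
        | nil => intro i h; simpa using h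
        | cons h r ih =>
          intro i hi
          cases i with
          | zero => simpa using hi
          | succ i =>
            rw [SimpleGraph.Walk.getVert_cons_succ]
            apply ih
            rw [← hi]
            exact (hidx _ _ (SimpleGraph.deleteEdges_adj.mp h).1).symm
      intro i
      have h1 := hgen q i rfl
      rcases hqi : q.getVert i with ⟨m, z⟩
      rw [hqi] at h1
      have h2 : m = n := h1
      subst h2
      exact ⟨z, rfl⟩
    choose f hf using hfib
    have hne : (⟨n, x⟩ : W) ≠ ⟨n, y⟩ := by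
      intro h
      have := (Sigma.mk.inj_iff.mp h).2
      exact hxy.ne (eq_of_heq this)
    have hl0 : q.length ≠ 0 := fun h => hne (SimpleGraph.Walk.eq_of_length_eq_zero h)
    have hl1 : q.length ≠ 1 := by
      intro h
      have := SimpleGraph.Walk.adj_of_length_eq_one h
      rw [SimpleGraph.deleteEdges_adj] at this
      exact this.2 rfl
    have hcy : FCyc (H n) (q.length + 1) f := by
      refine ⟨by omega, ?_, ?_, ?_⟩
      · intro i hi j hj hij
        have h1 : q.getVert i = q.getVert j := by rw [hf, hf, hij]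
        exact hq.getVert_injOn (by simpa using Nat.lt_succ_iff.mp hi)
          (by simpa using Nat.lt_succ_iff.mp hj) h1
      · intro i hi
        have h1 := q.adj_getVert_succ (i := i) (by omega)
        rw [SimpleGraph.deleteEdges_adj, hf, hf] at h1
        exact hadj _ _ _ h1.1
      · have h1 : q.getVert q.length = ⟨n, y⟩ := q.getVert_length
        have h2 : q.getVert 0 = ⟨n, x⟩ := q.getVert_zero
        rw [hf] at h1 h2
        have h1' := eq_of_heq (Sigma.mk.inj_iff.mp h1).2
        have h2' := eq_of_heq (Sigma.mk.inj_iff.mp h2).2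
        rw [Nat.add_sub_cancel, h1', h2']
        exact hxy.symm
    have := hcyc n _ _ hcy
    omega

/-- There is an unbounded uniformly discrete metric space `M` (all distances between distinct
points are at least `1`) whose Lipschitz space `Lip(M)` is almost square, for every choice of the
base point. -/
theorem result : ∃ (M : Type) (_ : MetricSpace M),
    (∀ x y : M, x ≠ y → 1 ≤ dist x y) ∧ ¬ Bornology.IsBounded (Set.univ : Set M) ∧
    ∀ o : M, AlmostSquare (LipSp M o) := by
  classical
  obtain ⟨W, Γ, idx, hΓ, hchr, hgir⟩ := graph_exists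
  let _ : MetricSpace W := mkMetric Γ idx hΓ
  have hdist : ∀ a b : W, dist a b = (dN Γ idx a b : ℝ) := fun a b => rfl
  have hone : ∀ x y : W, x ≠ y → 1 ≤ dist x y := by
    intro x y hxy
    rw [hdist]
    have : dN Γ idx x y ≠ 0 := fun h => hxy (dN_eq_zero Γ idx x y h)
    exact_mod_cast Nat.one_le_iff_ne_zero.mpr this
  have hreach : ∀ {a b : W}, Γ.Walk a b → idx a = idx b := by
    intro a b p
    induction p with
    | nil => rfl
    | cons h p ih => exact (hΓ _ _ h).trans ih
  refine ⟨W, inferInstance, hone, ?_, ?_⟩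
  · intro hb
    obtain ⟨C, hC⟩ := Metric.isBounded_iff.mp hb
    obtain ⟨n, hn⟩ := exists_nat_gt C
    obtain ⟨a, -, -, ha, -⟩ := hchr (n + 1) Unit inferInstance (fun _ => ()) (by simp)
    obtain ⟨b, -, -, hb, -⟩ := hchr (n + 2) Unit inferInstance (fun _ => ()) (by simp)
    have h1 := hC (Set.mem_univ a) (Set.mem_univ b)
    rw [hdist] at h1
    have h2 : Γ.edist a b = ⊤ := by
      by_contra h
      obtain ⟨p, -⟩ := SimpleGraph.exists_walk_of_edist_ne_top h
      have := hreach p
      omega
    have h3 := tr_cast Γ (max (idx a) (idx b) + 1) a b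
    rw [h2, min_eq_right le_top] at h3
    have h4 : tr Γ (max (idx a) (idx b) + 1) a b = max (idx a) (idx b) + 1 := by exact_mod_cast h3
    have h5 : n ≤ dN Γ idx a b := by unfold dN; rw [h4]; omega
    have h6 : (n : ℝ) ≤ (dN Γ idx a b : ℝ) := by exact_mod_cast h5
    linarith
  · intro o s hs ε hε
    obtain ⟨N0, hN0⟩ := exists_nat_gt (1 / ε)
    set N : ℕ := N0 + 2 with hN
    have : NeZero N := ⟨by omega⟩
    set n : ℕ := N ^ s.card + N with hn
    have hεn : 1 ≤ ε * ((n : ℝ) + 1) := by
      have h1 : (1 / ε) < (n : ℝ) + 1 := by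
        have : (N0 : ℝ) ≤ (n : ℝ) := by exact_mod_cast (by omega : N0 ≤ n)
        linarith
      rw [div_lt_iff₀ hε] at h1
      linarith
    have hf1 : ∀ (i : s) (a b : W), Γ.Adj a b →
        |((i : LipSp W o) : W → ℝ) a - ((i : LipSp W o) : W → ℝ) b| ≤ 1 := by
      intro i a b hab
      have h1 := norm_bound (i : LipSp W o) a b
      rw [hs i i.2, one_mul, hdist] at h1
      have h2 : dN Γ idx a b ≤ 1 := by
        have h3 := tr_cast Γ (max (idx a) (idx b) + 1) a b
        rw [SimpleGraph.edist_eq_one_iff_adj.mpr hab] at h3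
        have h4 : ((tr Γ (max (idx a) (idx b) + 1) a b : ℕ) : ℕ∞) ≤ ((1 : ℕ) : ℕ∞) := by
          rw [h3]; exact min_le_left _ _
        exact_mod_cast h4
      have h5 : (dN Γ idx a b : ℝ) ≤ 1 := by exact_mod_cast h2
      linarith
    -- the colouring
    obtain ⟨u, v, huv, hun, hc⟩ := hchr n (s → ZMod N) inferInstance
      (fun a i => ((⌊((i : LipSp W o) : W → ℝ) a / ε⌋ : ℤ) : ZMod N)) (by
        rw [Fintype.card_fun, ZMod.card, Fintype.card_coe]
        omega)
    have huvε : ∀ i : s, |((i : LipSp W o) : W → ℝ) u - ((i : LipSp W o) : W → ℝ) v| ≤ ε := by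
      intro i
      have h1 := congrFun hc i
      set p : ℝ := ((i : LipSp W o) : W → ℝ) u with hp
      set q : ℝ := ((i : LipSp W o) : W → ℝ) v with hq
      have h2 : (N : ℤ) ∣ ⌊q / ε⌋ - ⌊p / ε⌋ :=
        (ZMod.intCast_eq_intCast_iff_dvd_sub _ _ _).mp h1
      have h3 : |p - q| ≤ 1 := hf1 i u v huv
      have h4 : |p / ε - q / ε| < N0 := by
        rw [← sub_div, abs_div, abs_of_pos hε]
        exact lt_of_le_of_lt (div_le_div_of_nonneg_right h3 hε.le) hN0
      have h5 : |⌊q / ε⌋ - ⌊p / ε⌋| < (N : ℤ) := by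
        have a1 := Int.floor_le (p / ε)
        have a2 := Int.lt_floor_add_one (p / ε)
        have a3 := Int.floor_le (q / ε)
        have a4 := Int.lt_floor_add_one (q / ε)
        rw [abs_lt] at h4
        have h6 : ((|⌊q / ε⌋ - ⌊p / ε⌋| : ℤ) : ℝ) < ((N : ℤ) : ℝ) := by
          push_cast
          rw [abs_lt]
          have : (N : ℝ) = N0 + 2 := by rw [hN]; push_cast; ring
          constructor <;> linarith [h4.1, h4.2]
        exact_mod_cast h6
      have h6 : ⌊q / ε⌋ - ⌊p / ε⌋ = 0 := Int.eq_zero_of_abs_lt_dvd h2 h5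
      have a1 := Int.floor_le (p / ε)
      have a2 := Int.lt_floor_add_one (p / ε)
      have a3 := Int.floor_le (q / ε)
      have a4 := Int.lt_floor_add_one (q / ε)
      have h7 : (⌊q / ε⌋ : ℝ) = ⌊p / ε⌋ := by
        have : ⌊q / ε⌋ = ⌊p / ε⌋ := by omega
        rw [this]
      have h8 : |p / ε - q / ε| ≤ 1 := by
        rw [abs_le]; constructor <;> linarith
      rw [← sub_div, abs_div, abs_of_pos hε, div_le_iff₀ hε, one_mul] at h8
      exact h8
    -- the function
    set ρ : W → ℕ := tr (Γ.deleteEdges {s(u, v)}) (n + 1) u with hρ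
    set g : W → ℝ := fun z => max 0 (1 - ε * (ρ z : ℝ)) with hg
    have hg0 : ∀ z, 0 ≤ g z := fun z => le_max_left _ _
    have hg1 : ∀ z, g z ≤ 1 := by
      intro z
      apply max_le zero_le_one
      have : 0 ≤ ε * (ρ z : ℝ) := by positivity
      linarith
    have hgd : ∀ x y, |g x - g y| ≤ 1 := by
      intro x y
      rw [abs_le]
      constructor <;> linarith [hg0 x, hg0 y, hg1 x, hg1 y]
    have hgL : ∀ x y, |g x - g y| ≤ ε * |(ρ x : ℝ) - ρ y| := by
      intro x y
      have h1 : |g x - g y| ≤ |(1 - ε * (ρ x : ℝ)) - (1 - ε * (ρ y : ℝ))| := by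
        have := abs_max_sub_max_le_abs (1 - ε * (ρ x : ℝ)) (1 - ε * (ρ y : ℝ)) 0
        simp only [hg, max_comm (0 : ℝ)]
        exact this
      refine h1.trans (le_of_eq ?_)
      have : (1 - ε * (ρ x : ℝ)) - (1 - ε * (ρ y : ℝ)) = ε * ((ρ y : ℝ) - ρ x) := by ring
      rw [this, abs_mul, abs_of_pos hε, abs_sub_comm]
    have hgzero : ∀ z, ρ z = n + 1 → g z = 0 := by
      intro z hz
      simp only [hg, hz]
      apply max_eq_left
      push_cast
      linarith
    have hgu : g u = 1 := by
      have : ρ u = 0 := tr_self _ _ _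
      simp [hg, this]
    have hgv : g v = 0 := by
      apply hgzero
      have h1 : ((n + 1 : ℕ) : ℕ∞) ≤ (Γ.deleteEdges {s(u, v)}).edist u v := by
        by_contra h
        push Not at h
        obtain ⟨p, hp⟩ := SimpleGraph.exists_walk_of_edist_ne_top (ne_top_of_lt h)
        rw [← hp] at h
        have h2 := hgir u v huv p
        have h3 : p.length < n + 1 := by exact_mod_cast h
        omega
      have h3 := tr_cast (Γ.deleteEdges {s(u, v)}) (n + 1) u v
      rw [min_eq_right h1] at h3
      exact_mod_cast h3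
    have hgout : ∀ z, idx z ≠ n → g z = 0 := by
      intro z hz
      apply hgzero
      have h1 : (Γ.deleteEdges {s(u, v)}).edist u z = ⊤ := by
        by_contra h
        obtain ⟨p, -⟩ := SimpleGraph.exists_walk_of_edist_ne_top h
        have := hreach (p.mapLe (SimpleGraph.deleteEdges_le _))
        omega
      have h3 := tr_cast (Γ.deleteEdges {s(u, v)}) (n + 1) u z
      rw [h1, min_eq_right le_top] at h3
      exact_mod_cast h3
    have hkey : ∀ (i : s) (x y : W),
        |((i : LipSp W o) : W → ℝ) x - ((i : LipSp W o) : W → ℝ) y| + |g x - g y| ≤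
          (1 + ε) * dist x y := by
      intro i x y
      have hfi := norm_bound (i : LipSp W o) x y
      rw [hs i i.2, one_mul] at hfi
      by_cases hout : idx x ≠ n ∧ idx y ≠ n
      · rw [hgout x hout.1, hgout y hout.2]
        simp only [sub_self, abs_zero, add_zero]
        have : 0 ≤ ε * dist x y := by positivity
        linarith
      have hmax : n ≤ max (idx x) (idx y) := by
        by_contra h
        push Not at h
        have h1 := lt_of_le_of_lt (le_max_left (idx x) (idx y)) h
        have h2 := lt_of_le_of_lt (le_max_right (idx x) (idx y)) h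
        exact hout ⟨h1.ne, h2.ne⟩
      have h3 := tr_cast Γ (max (idx x) (idx y) + 1) x y
      rcases le_total (Γ.edist x y) ((max (idx x) (idx y) + 1 : ℕ) : ℕ∞) with h5 | h5
      · rw [min_eq_left h5] at h3
        obtain ⟨p, hp⟩ := SimpleGraph.exists_walk_of_edist_ne_top
          (ne_top_of_le_ne_top (ENat.natCast_ne_top _) h5)
        rw [← hp] at h3
        have h4 : dN Γ idx x y = p.length := by unfold dN; exact_mod_cast h3
        have h6 : dist x y = (p.length : ℝ) := by rw [hdist, h4]
        rw [h6] at hfi ⊢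
        rcases walk_key Γ (n + 1) u v (fun i : s => ((i : LipSp W o) : W → ℝ)) ε hf1 huvε p with
          h7 | ⟨h7, h8⟩
        · have h9 := hgL x y
          have h10 : ε * |(ρ x : ℝ) - ρ y| ≤ ε * p.length := mul_le_mul_of_nonneg_left h7 hε.le
          linarith
        · have h9 := hgd x y
          have h10 := h8 i
          have h11 : (1 : ℝ) ≤ p.length := by exact_mod_cast h7
          have h12 : ε * 1 ≤ ε * p.length := mul_le_mul_of_nonneg_left h11 hε.le
          linarith
      · rw [min_eq_right h5] at h3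
        have h4 : dN Γ idx x y = max (idx x) (idx y) + 1 := by unfold dN; exact_mod_cast h3
        have h6 : (n : ℝ) + 1 ≤ dist x y := by
          rw [hdist, h4]; exact_mod_cast (by omega : n + 1 ≤ max (idx x) (idx y) + 1)
        have h7 : ε * ((n : ℝ) + 1) ≤ ε * dist x y := mul_le_mul_of_nonneg_left h6 hε.le
        have h9 := hgd x y
        linarith
    have hglip : ∀ x y, |g x - g y| ≤ 1 * dist x y := by
      intro x y
      rw [one_mul]
      rcases eq_or_ne x y with rfl | hxy
      · simp
      · exact (hgd x y).trans (hone x y hxy)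
    let G : LipSp W o := ⟨fun z => g z - g o, by simp, 1, fun x y => by
      have : (g x - g o) - (g y - g o) = g x - g y := by ring
      rw [this]
      exact hglip x y⟩
    have hG : ∀ x y, (G : W → ℝ) x - (G : W → ℝ) y = g x - g y := by
      intro x y
      show (g x - g o) - (g y - g o) = g x - g y
      ring
    refine ⟨G, ?_, ?_⟩
    · apply le_antisymm
      · apply norm_le_of G zero_le_one
        intro x y
        rw [hG]
        exact hglip x y
      · have h1 := norm_bound G u v
        rw [hG, hgu, hgv, sub_zero, abs_one] at h1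
        have h2 : dist u v ≤ 1 := by
          rw [hdist]
          have h3 := tr_cast Γ (max (idx u) (idx v) + 1) u v
          rw [SimpleGraph.edist_eq_one_iff_adj.mpr huv] at h3
          have h4 : ((tr Γ (max (idx u) (idx v) + 1) u v : ℕ) : ℕ∞) ≤ ((1 : ℕ) : ℕ∞) := by
            rw [h3]; exact min_le_left _ _
          exact_mod_cast h4
        have h3 : ‖G‖ * dist u v ≤ ‖G‖ * 1 := mul_le_mul_of_nonneg_left h2 (norm_nonneg _)
        linarith
    · intro f hf
      have hk := hkey ⟨f, hf⟩
      simp only at hk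
      constructor
      · apply norm_le_of _ (by positivity)
        intro x y
        have h1 : ((f + G : LipSp W o) : W → ℝ) x - ((f + G : LipSp W o) : W → ℝ) y =
            ((f : W → ℝ) x - (f : W → ℝ) y) + (g x - g y) := by
          rw [← hG]; simp only [Submodule.coe_add, Pi.add_apply]; ring
        rw [h1]
        exact (abs_add_le _ _).trans (hk x y)
      · apply norm_le_of _ (by positivity)
        intro x y
        have h1 : ((f - G : LipSp W o) : W → ℝ) x - ((f - G : LipSp W o) : W → ℝ) y =
            ((f : W → ℝ) x - (f : W → ℝ) y) - (g x - g y) := by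
          rw [← hG]; simp only [Submodule.coe_sub, Pi.sub_apply]; ring
        rw [h1]
        exact (abs_sub _ _).trans (hk x y)


end Pool.Agent.Results.MP_fe8a5b_an.AlmostSquareLip
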